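import Pool.Agent.Work.MP_54723a_co.Blocks

/-!
# Monotone flashes and rainbows: block paths, and transitive colour classes
-/

set_option autoImplicit false

namespace Pool.Agent.Results.MP_54723a_co.BlockPaths

/-- Let `c` be any edge colouring of the complete graph on `n ≥ 1` ordered vertices, and for every
colour `γ` let `L γ` be such that there is no monotone path with `L γ` edges of colour `γ`.

(1) There are vertices `y₀ < y₁ < … < yₘ`, where `y₀` is the first vertex, and different colours
`γ₁, …, γₘ` with `n ≤ L γ₁ * ⋯ * L γₘ` such that `yᵢ₋₁` and `yᵢ` are joined by a monotone path with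
one or two edges, all of colour `γᵢ`.

(2) Hence, if every colour class is transitive, some rainbow monotone path which starts at the first
vertex has colours `γ₁, …, γₘ` with `n ≤ L γ₁ * ⋯ * L γₘ` (so that `n ≤ l ^ m` if there is no
`l`-flash). -/
theorem result (n : ℕ) (hn : 0 < n) (c : Fin n → Fin n → ℕ) (L : ℕ → ℕ)
    (hflash : ∀ γ : ℕ, ¬ ∃ x : Fin (L γ + 1) → Fin n, StrictMono x ∧
      ∀ i : Fin (L γ), c (x i.castSucc) (x i.succ) = γ) :
    (∃ (m : ℕ) (y : Fin (m + 1) → Fin n) (g : Fin m → ℕ), StrictMono y ∧ (y 0 : ℕ) = 0 ∧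
      Function.Injective g ∧ n ≤ ∏ i : Fin m, L (g i) ∧
      ∀ i : Fin m, c (y i.castSucc) (y i.succ) = g i ∨
        ∃ v : Fin n, y i.castSucc < v ∧ v < y i.succ ∧ c (y i.castSucc) v = g i ∧
          c v (y i.succ) = g i) ∧
    ((∀ u v w : Fin n, u < v → v < w → c u v = c v w → c u w = c u v) →
      ∃ (m : ℕ) (y : Fin (m + 1) → Fin n), StrictMono y ∧ (y 0 : ℕ) = 0 ∧
        Function.Injective (fun i : Fin m => c (y i.castSucc) (y i.succ)) ∧
        n ≤ ∏ i : Fin m, L (c (y i.castSucc) (y i.succ))) := by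
  have h := FlashRainbow.block_fin n c L hflash hn
  refine ⟨h, ?_⟩
  intro htrans
  obtain ⟨m, y, g, hy, hy0, hg, hn', hlink⟩ := h
  have hc : ∀ i : Fin m, c (y i.castSucc) (y i.succ) = g i := by
    intro i
    rcases hlink i with h | ⟨v, h1, h2, h3, h4⟩
    · exact h
    · rw [htrans _ v _ h1 h2 (h3.trans h4.symm), h3]
  refine ⟨m, y, hy, hy0, ?_, ?_⟩
  · intro i j hij
    exact hg (by rw [← hc i, ← hc j]; exact hij)
  · simpa only [hc] using hn'

end Pool.Agent.Results.MP_54723a_co.BlockPaths
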