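import Pool.Agent.Work.MP_54723a_co.Degree

/-!
# Monotone flashes and rainbows: the flash-degree inequality
-/

set_option autoImplicit false

namespace Pool.Agent.Results.MP_54723a_co.FlashDegree

/-- Let `l ≥ 2`, `k ≥ 1` and let `c` be an edge colouring of the complete graph on `n` ordered
vertices with neither an `l`-flash nor a `k`-rainbow. Write `d v` for the number of colours `γ` such
that `v` is a vertex of a `2`-flash of colour `γ`. Then `∑ v, (2 / l) ^ d v ≤ 2 ^ (k - 1)`, and in
particular `n ≤ l ^ (k - 1)` if the average of `d` is at most `k - 1`. -/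
theorem result (l k n : ℕ) (hl : 2 ≤ l) (hk : 1 ≤ k) (c : Fin n → Fin n → ℕ)
    (hflash : ¬ ∃ x : Fin (l + 1) → Fin n, StrictMono x ∧
        ∃ col : ℕ, ∀ i : Fin l, c (x i.castSucc) (x i.succ) = col)
    (hrain : ¬ ∃ y : Fin (k + 1) → Fin n, StrictMono y ∧
        Function.Injective (fun i : Fin k => c (y i.castSucc) (y i.succ))) :
    (∑ v : Fin n, ((2 : ℝ) / l) ^ FlashRainbow.flashDegree c v ≤ 2 ^ (k - 1)) ∧
    (∑ v : Fin n, FlashRainbow.flashDegree c v ≤ (k - 1) * n → n ≤ l ^ (k - 1)) :=
  ⟨FlashRainbow.degree_fin l k n hl hk c hflash hrain,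
    FlashRainbow.average_fin l k n hl hk c hflash hrain⟩

end Pool.Agent.Results.MP_54723a_co.FlashDegree
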