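import Pool.Agent.Work.MP_54723a_co.OpenDegree

/-!
# Monotone flashes and rainbows: the inequality for open flashes
-/

set_option autoImplicit false

namespace Pool.Agent.Results.MP_54723a_co.OpenFlashes

/-- Let `l ≥ 2`, `k ≥ 1` and let `c` be an edge colouring of the complete graph on `n` ordered
vertices with neither an `l`-flash nor a `k`-rainbow. Fix a colour `γ₀` and write `d v` for the number
of colours `γ ≠ γ₀` such that `v` lies on a path `a < b < e` with `c a b = c b e = γ ≠ c a e`. Then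
`∑ v, (2 / l) ^ d v ≤ l ^ (k - 1)`; in particular `n ≤ l ^ (k - 1)` if every colour class except
possibly that of `γ₀` is transitive. -/
theorem result (l k n : ℕ) (hl : 2 ≤ l) (hk : 1 ≤ k) (c : Fin n → Fin n → ℕ) (γ₀ : ℕ)
    (hflash : ¬ ∃ x : Fin (l + 1) → Fin n, StrictMono x ∧
        ∃ col : ℕ, ∀ i : Fin l, c (x i.castSucc) (x i.succ) = col)
    (hrain : ¬ ∃ y : Fin (k + 1) → Fin n, StrictMono y ∧
        Function.Injective (fun i : Fin k => c (y i.castSucc) (y i.succ))) :
    (∑ v : Fin n, ((2 : ℝ) / l) ^ FlashRainbow.openDegree c γ₀ v ≤ (l : ℝ) ^ (k - 1)) ∧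
    ((∀ u v w : Fin n, u < v → v < w → c u v ≠ γ₀ → c u v = c v w → c u w = c u v) →
      n ≤ l ^ (k - 1)) := by
  have h2 := FlashRainbow.open_fin l k n hl hk c γ₀ hflash hrain
  refine ⟨h2, ?_⟩
  intro htr
  have h0 : ∀ v : Fin n, FlashRainbow.openDegree c γ₀ v = 0 := by
    intro v
    unfold FlashRainbow.openDegree
    rw [Set.ncard_eq_zero (Set.Finite.subset (Set.finite_range (fun p : Fin n × Fin n => c p.1 p.2))
      (by
        rintro γ ⟨_, a, b, _, _, _, h, _⟩
        exact ⟨(a, b), h⟩))]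
    rw [Set.eq_empty_iff_forall_notMem]
    rintro γ ⟨hne, a, b, d, hab, hbd, h1, h3, h4, _⟩
    exact h4 ((htr a b d hab hbd (h1 ▸ hne) (h1.trans h3.symm)).trans h1)
  simp only [h0, pow_zero, Finset.sum_const, Finset.card_univ, Fintype.card_fin, nsmul_eq_mul,
    mul_one] at h2
  exact_mod_cast h2

end Pool.Agent.Results.MP_54723a_co.OpenFlashes
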